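import Pool.Agent.CP25.Prob

/-!
# The probability of the bad event
-/

set_option autoImplicit false

namespace Pool.Agent.CP25

open MeasureTheory ProbabilityTheory Finset Filter Topology
open Pool.Agent.CM69 (tr mem_tr real_biInter key)

variable {Ω : Type*} [mΩ : MeasurableSpace Ω] {μ : Measure Ω} {E : ℕ → Set Ω}

theorem one_le_log {m : ℕ} (h : 3 ≤ m) : 1 ≤ Real.log m := by
  have h1 : (3 : ℝ) ≤ m := by exact_mod_cast h
  rw [Real.le_log_iff_exp_le (by linarith)]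
  have := Real.exp_one_lt_d9
  linarith

theorem cc_le {n m : ℕ} (hn : 3 ≤ n) (h3 : 3 ≤ m) (h : m ≤ n ^ 3) :
    1 / (3 * Real.log n) ≤ 1 / Real.log m := by
  have h1 := one_le_log h3
  have h2 : Real.log m ≤ 3 * Real.log n := by
    have h4 : Real.log ((n : ℝ) ^ 3) = 3 * Real.log n := by
      rw [Real.log_pow]
      norm_num
    rw [← h4]
    refine Real.log_le_log ?_ (by exact_mod_cast h)
    have : (3 : ℝ) ≤ m := by exact_mod_cast h3
    linarith
  exact one_div_le_one_div_of_le (by linarith) h2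

theorem cc_pos {n : ℕ} (hn : 3 ≤ n) : 0 ≤ 1 / (3 * Real.log n) ∧ 1 / (3 * Real.log n) ≤ 1 / 3 := by
  have h1 := one_le_log hn
  constructor
  · positivity
  · exact one_div_le_one_div_of_le (by norm_num) (by linarith)

theorem key_le [IsProbabilityMeasure μ] (hE : ∀ m, MeasurableSet (E m)) (hi : iIndepSet E μ)
    (hp : ∀ m, 3 ≤ m → μ.real (E m) = 1 / Real.log m) {n : ℕ} (hn : 3 ≤ n) (X : ℕ) (V : Finset ℕ)
    (hV : ∀ m ∈ V, 3 ≤ m ∧ m ≤ n ^ 3) (Q : Finset ℕ → Finset ℕ) (hQ : ∀ G, Q G ⊆ V) (R : ℕ) :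
    μ.real {ω | R ≤ (Q (tr E X V ω)).card ∧ ∀ q ∈ Q (tr E X V ω), ω ∉ E q} ≤
      (1 - 1 / (3 * Real.log n)) ^ R := by
  refine key hE hi X V (cc_pos hn).1 (by linarith [(cc_pos hn).2]) (fun m hm => ?_) Q hQ R
  rw [hp m (hV m hm).1]
  exact cc_le hn (hV m hm).1 (hV m hm).2

theorem w1_le [IsProbabilityMeasure μ] (hE : ∀ m, MeasurableSet (E m)) (hi : iIndepSet E μ)
    (hp : ∀ m, 3 ≤ m → μ.real (E m) = 1 / Real.log m) {n k y : ℕ} (hn : 3 ≤ n) (hy : 3 ≤ y)
    (hk : y + k ≤ n ^ 3) : μ.real (W1 E k y) ≤ (1 - 1 / (3 * Real.log n)) ^ k := by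
  refine le_trans (measureReal_mono ?_ (measure_ne_top _ _)) (key_le hE hi hp hn 0 (Ico y (y + k))
    (fun m hm => ?_) (fun _ => Ico y (y + k)) (fun _ => Subset.refl _) k)
  · intro ω hω
    refine ⟨?_, hω⟩
    rw [Nat.card_Ico]
    omega
  · rw [mem_Ico] at hm
    omega

theorem half_le {m : ℕ} (h : 8 ≤ m) : 1 / Real.log m ≤ 1 / 2 := by
  have h1 : (8 : ℝ) ≤ m := by exact_mod_cast h
  have h2 : 2 ≤ Real.log m := by
    have h3 : Real.log 8 ≤ Real.log m := Real.log_le_log (by norm_num) h1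
    have h4 : Real.log 8 = 3 * Real.log 2 := by
      rw [show (8 : ℝ) = 2 ^ 3 by norm_num, Real.log_pow]
      norm_num
    have := Real.log_two_gt_d9
    linarith
  exact one_div_le_one_div_of_le (by norm_num) h2

theorem w2_le [IsProbabilityMeasure μ] (hi : iIndepSet E μ)
    (hp : ∀ m, 3 ≤ m → μ.real (E m) = 1 / Real.log m) {n k y : ℕ} (hn : 3 ≤ n) (hy : 8 ≤ y) :
    μ.real (W2 E k y) ≤ (1 - 1 / (3 * Real.log n)) ^ k := by
  have h1 : W2 E k y = ⋂ m ∈ Ico y (y + k), E m := by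
    ext ω
    simp only [W2, Set.mem_ofPred_eq, Set.mem_iInter]
  rw [h1, real_biInter hi _ _ fun m _ => Or.inl rfl]
  calc ∏ m ∈ Ico y (y + k), μ.real (E m) ≤ ∏ _m ∈ Ico y (y + k), (1 - 1 / (3 * Real.log n)) := by
        refine prod_le_prod (fun m _ => measureReal_nonneg) fun m hm => ?_
        rw [mem_Ico] at hm
        rw [hp m (by omega)]
        have h2 := half_le (m := m) (by omega)
        have h3 := (cc_pos hn).2
        linarith
    _ = (1 - 1 / (3 * Real.log n)) ^ k := by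
        rw [prod_const, Nat.card_Ico]
        congr 1
        omega

theorem bg_le [IsProbabilityMeasure μ] (hE : ∀ m, MeasurableSet (E m)) (hi : iIndepSet E μ)
    (hp : ∀ m, 3 ≤ m → μ.real (E m) = 1 / Real.log m) {n k t : ℕ} (hn : 4 ≤ n) :
    μ.real (BG E n k t) ≤ (1 - 1 / (3 * Real.log n)) ^ k := by
  have h2 : 2 * n ≤ n ^ 3 := by
    have h3 : 2 * n ≤ n * n := Nat.mul_le_mul_right n (by omega)
    have h4 : n * n ≤ n ^ 3 := by
      have e : n ^ 3 = n * n * n := by ring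
      rw [e]
      exact Nat.le_mul_of_pos_right _ (by omega)
    omega
  refine key_le hE hi hp (by omega) (n ^ 2) (Icc (n - 1) (2 * n)) (fun m hm => ?_) (Qg n k t)
    (fun G => filter_subset _ _) k
  rw [mem_Icc] at hm
  omega

theorem f1_le [IsProbabilityMeasure μ] (hE : ∀ m, MeasurableSet (E m)) (hi : iIndepSet E μ)
    (hp : ∀ m, 3 ≤ m → μ.real (E m) = 1 / Real.log m) {n k v c : ℕ} (hn : 3 ≤ n) (hv : 3 ≤ v)
    (hk : v + k ^ 6 ≤ n ^ 3) :
    μ.real (F1 E n k v c) ≤ (1 - 1 / (3 * Real.log n)) ^ (k ^ 2) := by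
  refine key_le hE hi hp hn (n ^ 2) (Icc v (v + k ^ 6)) (fun m hm => ?_) (Q1f n k v c)
    (fun G => filter_subset _ _) (k ^ 2)
  rw [mem_Icc] at hm
  omega

theorem f2_le [IsProbabilityMeasure μ] (hE : ∀ m, MeasurableSet (E m)) (hi : iIndepSet E μ)
    (hp : ∀ m, 3 ≤ m → μ.real (E m) = 1 / Real.log m) {n k v : ℕ} (hn : 3 ≤ n) (hv : 3 ≤ v)
    (hk : v + k ^ 6 ≤ n ^ 3) :
    μ.real (F2 E n k v) ≤ (1 - 1 / (3 * Real.log n)) ^ (k ^ 2) := by
  refine key_le hE hi hp hn (n ^ 2) (Icc v (v + k ^ 6)) (fun m hm => ?_) (Q2f n k v)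
    (fun G => filter_subset _ _) (k ^ 2)
  rw [mem_Icc] at hm
  omega

theorem uu_le [IsProbabilityMeasure μ] (hE : ∀ m, MeasurableSet (E m)) (hi : iIndepSet E μ)
    {n : ℕ} (hn : 2 ≤ n) (hS : ∑ m ∈ range (4 * n), μ.real (E m) ≤ n / 8) :
    μ.real (UU E n) ≤ Real.exp (-(n / 4)) := by
  classical
  refine le_trans (measureReal_mono ?_ (measure_ne_top _ _))
    (Pool.Agent.GM53.chernoff_S hE hi (range (4 * n)) (n / 4))
  intro ω hω
  rw [Set.mem_ofPred_eq]
  have h1 : ∑ m ∈ range (4 * n), (E m).indicator (fun _ => (1 : ℝ)) ω =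
      (cn (RS E ω) (4 * n) : ℝ) := by
    unfold cn
    rw [card_filter]
    push_cast
    refine sum_congr rfl fun m _ => ?_
    by_cases h : ω ∈ E m
    · rw [Set.indicator_of_mem h, if_pos (by exact h)]
    · rw [Set.indicator_of_notMem h, if_neg (by exact h)]
  rw [h1]
  have h2 : n < cn (RS E ω) (4 * n) + 2 := hω
  have h3 : (n : ℝ) ≤ cn (RS E ω) (4 * n) + 1 := by
    have : n ≤ cn (RS E ω) (4 * n) + 1 := by omega
    exact_mod_cast this
  have h4 : (2 : ℝ) ≤ n := by exact_mod_cast hn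
  linarith

theorem bad_le [IsProbabilityMeasure μ] (hE : ∀ m, MeasurableSet (E m)) (hi : iIndepSet E μ)
    (hp : ∀ m, 3 ≤ m → μ.real (E m) = 1 / Real.log m) {n k : ℕ} (hk : 5 ≤ k) (hn : k ^ 10 ≤ n)
    (hS : ∑ m ∈ range (4 * n), μ.real (E m) ≤ n / 8) :
    μ.real (Bad E n k) ≤ Real.exp (-(n / 4)) +
      7 * (n : ℝ) ^ 3 * (1 - 1 / (3 * Real.log n)) ^ k := by
  obtain ⟨s1, s2, s3, s4, s5, s6⟩ := sizes hk hn
  have hn3 : 4 ≤ n := by omega
  obtain ⟨c0, c1⟩ := cc_pos (n := n) (by omega)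
  obtain ⟨r, hr⟩ : ∃ r, r = (1 - 1 / (3 * Real.log n)) ^ k := ⟨_, rfl⟩
  have hr0 : 0 ≤ r := by
    rw [hr]
    exact pow_nonneg (by linarith) k
  have hk2 : k ≤ k ^ 2 := by nlinarith
  have hk26 : k ^ 2 ≤ k ^ 6 := Nat.pow_le_pow_right (by omega) (by norm_num)
  have hr2 : (1 - 1 / (3 * Real.log n)) ^ (k ^ 2) ≤ r := by
    rw [hr]
    exact pow_le_pow_of_le_one (by linarith) (by linarith) hk2
  have hn23 : 4 * n ^ 2 ≤ n ^ 3 := by
    have e : n ^ 3 = n * n ^ 2 := by ring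
    rw [e]
    exact Nat.mul_le_mul_right _ hn3
  have hnn2 : 4 * n ≤ n ^ 2 := by
    have e : n ^ 2 = n * n := by ring
    rw [e]
    exact Nat.mul_le_mul_right _ hn3
  have b1 : μ.real (⋃ y ∈ (range (n ^ 2)).filter (fun y => 8 ≤ y), W1 E k y) ≤ n ^ 2 * r := by
    calc _ ≤ ∑ y ∈ (range (n ^ 2)).filter (fun y => 8 ≤ y), μ.real (W1 E k y) :=
          measureReal_biUnion_finset_le _ _
      _ ≤ ∑ y ∈ (range (n ^ 2)).filter (fun y => 8 ≤ y), r := by
          refine sum_le_sum fun y hy => ?_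
          rw [mem_filter, mem_range] at hy
          rw [hr]
          exact w1_le hE hi hp (by omega) (by omega) (by omega)
      _ ≤ ∑ y ∈ range (n ^ 2), r :=
          sum_le_sum_of_subset_of_nonneg (filter_subset _ _) fun _ _ _ => hr0
      _ = n ^ 2 * r := by
          rw [sum_const, card_range, nsmul_eq_mul]
          push_cast
          ring
  have b2 : μ.real (⋃ y ∈ (range (n ^ 2)).filter (fun y => 8 ≤ y), W2 E k y) ≤ n ^ 2 * r := by
    calc _ ≤ ∑ y ∈ (range (n ^ 2)).filter (fun y => 8 ≤ y), μ.real (W2 E k y) :=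
          measureReal_biUnion_finset_le _ _
      _ ≤ ∑ y ∈ (range (n ^ 2)).filter (fun y => 8 ≤ y), r := by
          refine sum_le_sum fun y hy => ?_
          rw [mem_filter, mem_range] at hy
          rw [hr]
          exact w2_le hi hp (by omega) (by omega)
      _ ≤ ∑ y ∈ range (n ^ 2), r :=
          sum_le_sum_of_subset_of_nonneg (filter_subset _ _) fun _ _ _ => hr0
      _ = n ^ 2 * r := by
          rw [sum_const, card_range, nsmul_eq_mul]
          push_cast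
          ring
  have b3 : μ.real (UU E n) ≤ Real.exp (-(n / 4)) := uu_le hE hi (by omega) hS
  have b4 : μ.real (⋃ t ∈ range (k ^ 2), BG E n k t) ≤ n * r := by
    calc _ ≤ ∑ t ∈ range (k ^ 2), μ.real (BG E n k t) := measureReal_biUnion_finset_le _ _
      _ ≤ ∑ t ∈ range (k ^ 2), r := by
          refine sum_le_sum fun t _ => ?_
          rw [hr]
          exact bg_le hE hi hp hn3
      _ = ((k ^ 2 : ℕ) : ℝ) * r := by rw [sum_const, card_range, nsmul_eq_mul]
      _ ≤ n * r := by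
          refine mul_le_mul_of_nonneg_right ?_ hr0
          exact_mod_cast (show k ^ 2 ≤ n by omega)
  have b5 : μ.real (⋃ v ∈ (range (n ^ 2 + 1)).filter (fun v => 2 * n < v),
      ⋃ c ∈ range (k ^ 6 + 2), F1 E n k v c) ≤ 2 * n ^ 2 * (n * r) := by
    calc _ ≤ ∑ v ∈ (range (n ^ 2 + 1)).filter (fun v => 2 * n < v),
          μ.real (⋃ c ∈ range (k ^ 6 + 2), F1 E n k v c) := measureReal_biUnion_finset_le _ _
      _ ≤ ∑ v ∈ (range (n ^ 2 + 1)).filter (fun v => 2 * n < v), n * r := by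
          refine sum_le_sum fun v hv => ?_
          rw [mem_filter, mem_range] at hv
          calc _ ≤ ∑ c ∈ range (k ^ 6 + 2), μ.real (F1 E n k v c) :=
                measureReal_biUnion_finset_le _ _
            _ ≤ ∑ c ∈ range (k ^ 6 + 2), r :=
                sum_le_sum fun c _ => (f1_le hE hi hp (by omega) (by omega) (by omega)).trans hr2
            _ = ((k ^ 6 + 2 : ℕ) : ℝ) * r := by rw [sum_const, card_range, nsmul_eq_mul]
            _ ≤ n * r := by
                refine mul_le_mul_of_nonneg_right ?_ hr0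
                exact_mod_cast (show k ^ 6 + 2 ≤ n by omega)
      _ ≤ ∑ v ∈ range (n ^ 2 + 1), (n : ℝ) * r :=
          sum_le_sum_of_subset_of_nonneg (filter_subset _ _) fun _ _ _ => by positivity
      _ = ((n ^ 2 + 1 : ℕ) : ℝ) * (n * r) := by rw [sum_const, card_range, nsmul_eq_mul]
      _ ≤ 2 * n ^ 2 * (n * r) := by
          refine mul_le_mul_of_nonneg_right ?_ (by positivity)
          exact_mod_cast (show n ^ 2 + 1 ≤ 2 * n ^ 2 by omega)
  have b6 : μ.real (⋃ v ∈ (range (n ^ 2 + 1)).filter (fun v => 2 * n < v), F2 E n k v) ≤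
      2 * n ^ 2 * r := by
    calc _ ≤ ∑ v ∈ (range (n ^ 2 + 1)).filter (fun v => 2 * n < v), μ.real (F2 E n k v) :=
          measureReal_biUnion_finset_le _ _
      _ ≤ ∑ v ∈ (range (n ^ 2 + 1)).filter (fun v => 2 * n < v), r := by
          refine sum_le_sum fun v hv => ?_
          rw [mem_filter, mem_range] at hv
          exact (f2_le hE hi hp (by omega) (by omega) (by omega)).trans hr2
      _ ≤ ∑ v ∈ range (n ^ 2 + 1), r :=
          sum_le_sum_of_subset_of_nonneg (filter_subset _ _) fun _ _ _ => hr0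
      _ = ((n ^ 2 + 1 : ℕ) : ℝ) * r := by rw [sum_const, card_range, nsmul_eq_mul]
      _ ≤ 2 * n ^ 2 * r := by
          refine mul_le_mul_of_nonneg_right ?_ hr0
          exact_mod_cast (show n ^ 2 + 1 ≤ 2 * n ^ 2 by omega)
  have htot : μ.real (Bad E n k) ≤ n ^ 2 * r + (n ^ 2 * r + (Real.exp (-(n / 4)) + (n * r +
      (2 * n ^ 2 * (n * r) + 2 * n ^ 2 * r)))) := by
    unfold Bad
    refine (measureReal_union_le _ _).trans (add_le_add b1 ?_)
    refine (measureReal_union_le _ _).trans (add_le_add b2 ?_)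
    refine (measureReal_union_le _ _).trans (add_le_add b3 ?_)
    refine (measureReal_union_le _ _).trans (add_le_add b4 ?_)
    exact (measureReal_union_le _ _).trans (add_le_add b5 b6)
  rw [← hr]
  have g1 : (4 : ℝ) * n ^ 2 ≤ n ^ 3 := by exact_mod_cast hn23
  have g2 : (4 : ℝ) * n ≤ n ^ 2 := by exact_mod_cast hnn2
  have g3 : (4 : ℝ) * n ^ 2 * r ≤ n ^ 3 * r := mul_le_mul_of_nonneg_right g1 hr0
  have g4 : (4 : ℝ) * n * r ≤ n ^ 2 * r := mul_le_mul_of_nonneg_right g2 hr0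
  have g5 : 2 * (n : ℝ) ^ 2 * (n * r) = 2 * (n ^ 3 * r) := by ring
  have g6 : 0 ≤ (n : ℝ) ^ 3 * r := by positivity
  have g7 : 7 * (n : ℝ) ^ 3 * r = 7 * (n ^ 3 * r) := by ring
  rw [g7]
  rw [g5] at htot
  linarith

end Pool.Agent.CP25
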