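import Mathlib

/-!
# The deterministic part

`cn A x` = number of elements of `A` below `x`. `Win A k X`: every window of length `k` in `[8, X)` contains an element and a
non-element of `A`. `det1` and `det2`: for a typical set `A` there is a window `V = [v, v + k^6]` such that `Q1f` (resp. `Q2f`), a function
of the part of `A` outside of `V` (and, for `Q1f`, of the number of elements of `A` in `V`) has at least `k^2` elements in `V`.
-/

set_option autoImplicit false

open Finset

namespace Pool.Agent.CP25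

open Classical in
/-- The number of elements of `A` below `x`. -/
noncomputable def cn (A : Set ℕ) (x : ℕ) : ℕ := ((range x).filter (fun m => m ∈ A)).card

open Classical in
/-- The part of `A` below `X` and outside of `V`. -/
noncomputable def trS (A : Set ℕ) (X : ℕ) (V : Finset ℕ) : Finset ℕ :=
  (range X \ V).filter (fun m => m ∈ A)

open Classical in
/-- The number of elements of `A` in `V`. -/
noncomputable def cV (A : Set ℕ) (V : Finset ℕ) : ℕ := (V.filter (fun m => m ∈ A)).card

/-- Every window of length `k` contains an element and a non-element of `A`. -/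
def Win (A : Set ℕ) (k X : ℕ) : Prop :=
  ∀ y, 8 ≤ y → y + k ≤ X → (∃ m, m ∈ A ∧ y ≤ m ∧ m < y + k) ∧ (∃ m, m ∉ A ∧ y ≤ m ∧ m < y + k)

open Classical in
/-- The positions `q = b - p + 1` in the window `[v, v + k^6]`. -/
noncomputable def Q1f (n k v c : ℕ) (G : Finset ℕ) : Finset ℕ :=
  (Icc v (v + k ^ 6)).filter (fun q => ∃ a ∈ G, ∃ p ∈ G, ∃ b ∈ G, a + 1 < n ∧ v + k ^ 6 < b ∧
    p + cn (G : Set ℕ) a + 1 = n + a ∧ cn (G : Set ℕ) b + c + 1 = p ∧ q + p = b + 1)

open Classical in
/-- The positions `q = b + p + 1` in the window `[v, v + k^6]`. -/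
noncomputable def Q2f (n k v : ℕ) (G : Finset ℕ) : Finset ℕ :=
  (Icc v (v + k ^ 6)).filter (fun q => ∃ a ∈ G, ∃ p ∈ G, ∃ b ∈ G, a + 1 < n ∧ b < v ∧
    p + cn (G : Set ℕ) a + 1 = n + a ∧ cn (G : Set ℕ) b + 1 = p ∧ q = b + p + 1)

variable {A : Set ℕ}

theorem cn_mono {x y : ℕ} (h : x ≤ y) : cn A x ≤ cn A y := by
  classical
  unfold cn
  exact card_le_card (filter_subset_filter _ (range_mono h))

theorem cn_split {x y : ℕ} (h : x ≤ y) :
    cn A y = cn A x + cV A (Ico x y) := by
  classical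
  unfold cn cV
  rw [← card_union_of_disjoint]
  · rw [← filter_union]
    congr 2
    ext m
    simp only [mem_range, mem_union, mem_Ico]
    omega
  · rw [disjoint_left]
    intro m hm hm'
    rw [mem_filter, mem_range] at hm
    rw [mem_filter, mem_Ico] at hm'
    omega

theorem cn_le_add {x y : ℕ} (h : x ≤ y) : cn A y + x ≤ cn A x + y := by
  classical
  have h1 := cn_split (A := A) h
  have h2 : cV A (Ico x y) ≤ y - x := by
    unfold cV
    calc _ ≤ (Ico x y).card := card_le_card (filter_subset _ _)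
      _ = y - x := Nat.card_Ico x y
  omega

theorem cn_le (x : ℕ) : cn A x ≤ x := by
  have h := cn_le_add (A := A) (Nat.zero_le x)
  have h0 : cn A 0 = 0 := by
    unfold cn
    simp
  omega

theorem cn_lt {x y m : ℕ} (hm : m ∈ A) (h1 : x ≤ m) (h2 : m < y) : cn A x + 1 ≤ cn A y := by
  classical
  have h3 := cn_split (A := A) (h1.trans h2.le)
  have h4 : 0 < cV A (Ico x y) := by
    unfold cV
    exact card_pos.2 ⟨m, mem_filter.2 ⟨mem_Ico.2 ⟨h1, h2⟩, hm⟩⟩
  omega

theorem cn_ne {x y m : ℕ} (hm : m ∉ A) (h1 : x ≤ m) (h2 : m < y) :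
    cn A y + x + 1 ≤ cn A x + y := by
  classical
  have h3 := cn_split (A := A) (h1.trans h2.le)
  have h4 : cV A (Ico x y) < y - x := by
    unfold cV
    calc _ < (Ico x y).card := card_lt_card (by
            rw [ssubset_iff_of_subset (filter_subset _ _)]
            exact ⟨m, mem_Ico.2 ⟨h1, h2⟩, fun h => hm (mem_filter.1 h).2⟩)
      _ = y - x := Nat.card_Ico x y
  omega

/-- `j` windows contain `j` elements. -/
theorem Win.el {k X : ℕ} (hW : Win A k X) {x : ℕ} (hx : 8 ≤ x) :
    ∀ j, x + j * k ≤ X → cn A x + j ≤ cn A (x + j * k) := by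
  intro j
  induction j with
  | zero =>
    intro _
    simp
  | succ j ih =>
    intro h
    have e : (j + 1) * k = j * k + k := by ring
    rw [e] at h ⊢
    have h1 := ih (by omega)
    obtain ⟨⟨m, hm, h2, h3⟩, -⟩ := hW (x + j * k) (by omega) (by omega)
    have h4 := cn_lt hm h2 h3
    have e2 : x + (j * k + k) = x + j * k + k := by ring
    rw [e2]
    omega

/-- `j` windows contain `j` non-elements. -/
theorem Win.ne {k X : ℕ} (hW : Win A k X) {x : ℕ} (hx : 8 ≤ x) :
    ∀ j, x + j * k ≤ X → cn A (x + j * k) + j ≤ cn A x + j * k := by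
  intro j
  induction j with
  | zero =>
    intro _
    simp
  | succ j ih =>
    intro h
    have e : (j + 1) * k = j * k + k := by ring
    rw [e] at h ⊢
    have h1 := ih (by omega)
    obtain ⟨-, m, hm, h2, h3⟩ := hW (x + j * k) (by omega) (by omega)
    have h4 := cn_ne hm h2 h3
    have e2 : x + (j * k + k) = x + j * k + k := by ring
    rw [e2]
    omega

theorem Win.ne' {k X : ℕ} (hW : Win A k X) {x y j : ℕ} (hx : 8 ≤ x) (h : x + j * k ≤ y)
    (hy : y ≤ X) : cn A y + x + j ≤ cn A x + y := by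
  have h1 := hW.ne hx j (by omega)
  have h2 := cn_le_add (A := A) h
  omega

/-- The element number `p`. -/
theorem exists_el {x p : ℕ} (hp : 1 ≤ p) (h : p ≤ cn A x) :
    ∃ b, b ∈ A ∧ b < x ∧ cn A b + 1 = p := by
  classical
  have hex : ∃ y, p ≤ cn A y := ⟨x, h⟩
  have h1 := Nat.find_spec hex
  have h2 : Nat.find hex ≤ x := Nat.find_min' hex h
  obtain ⟨y, hy⟩ : ∃ y, y = Nat.find hex := ⟨_, rfl⟩
  rw [← hy] at h1 h2
  rcases Nat.eq_zero_or_pos y with h3 | h3
  · rw [h3] at h1
    have h4 := cn_le (A := A) 0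
    omega
  · obtain ⟨b, rfl⟩ : ∃ b, y = b + 1 := ⟨y - 1, by omega⟩
    have h4 : ¬ p ≤ cn A b := Nat.find_min hex (by omega)
    have h5 := cn_le_add (A := A) (Nat.le_succ b)
    have h6 : b ∈ A := by
      by_contra hb
      have h7 := cn_ne hb le_rfl (Nat.lt_succ_self b)
      have h8 : b.succ = b + 1 := rfl
      rw [h8] at h7
      omega
    refine ⟨b, h6, by omega, ?_⟩
    have h8 : b.succ = b + 1 := rfl
    rw [h8] at h5
    omega

theorem mem_trS {X : ℕ} {V : Finset ℕ} {m : ℕ} : m ∈ trS A X V ↔ m < X ∧ m ∉ V ∧ m ∈ A := by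
  classical
  unfold trS
  rw [mem_filter, mem_sdiff, mem_range, and_assoc]

theorem cn_tr_lo {X : ℕ} {V : Finset ℕ} {a : ℕ} (hV : ∀ m ∈ V, a ≤ m) (hX : a ≤ X) :
    cn (trS A X V : Set ℕ) a = cn A a := by
  classical
  unfold cn
  congr 1
  ext m
  simp only [mem_filter, mem_range, mem_coe, mem_trS]
  constructor
  · rintro ⟨h1, -, -, h⟩
    exact ⟨h1, h⟩
  · rintro ⟨h1, h⟩
    exact ⟨h1, by omega, fun h' => absurd (hV m h') (by omega), h⟩

theorem cn_tr_hi {X : ℕ} {V : Finset ℕ} {b : ℕ} (hV : ∀ m ∈ V, m < b) (hX : b ≤ X) :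
    cn (trS A X V : Set ℕ) b + cV A V = cn A b := by
  classical
  unfold cn cV
  rw [← card_union_of_disjoint]
  · congr 1
    ext m
    simp only [mem_union, mem_filter, mem_range, mem_coe, mem_trS]
    constructor
    · rintro (⟨h1, -, -, h2⟩ | ⟨h1, h2⟩)
      · exact ⟨h1, h2⟩
      · exact ⟨hV m h1, h2⟩
    · rintro ⟨h1, h2⟩
      by_cases h3 : m ∈ V
      · exact Or.inr ⟨h3, h2⟩
      · exact Or.inl ⟨h1, by omega, h3, h2⟩
  · rw [disjoint_left]
    intro m hm hm'
    simp only [mem_filter, mem_range, mem_coe, mem_trS] at hm hm'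
    exact hm.2.2.1 hm'.1

/-- The number of different values `p` for the elements `a` of a block. -/
theorem many_p {k X n z : ℕ} (hW : Win A k X) (hk : 1 ≤ k) (hn : 1 ≤ n) (hz : 8 ≤ z)
    (hX : z + 2 * k ^ 2 ≤ X) (S : Finset ℕ)
    (hS : ∀ p, (∃ a ∈ A, z ≤ a ∧ a < z + 2 * k ^ 2 ∧ p + cn A a + 1 = n + a) → p ∈ S) :
    k ≤ S.card := by
  classical
  have hex : ∀ i < k, ∃ a, a ∈ A ∧ z + 2 * k * i ≤ a ∧ a < z + 2 * k * i + k := by
    intro i hi
    have h1 : 2 * k * i + k ≤ 2 * k ^ 2 := by nlinarith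
    obtain ⟨⟨m, hm, h2, h3⟩, -⟩ := hW (z + 2 * k * i) (by omega) (by omega)
    exact ⟨m, hm, h2, h3⟩
  choose! a ha ha1 ha2 using hex
  have hp : ∀ i, ∃ p, p + cn A (a i) + 1 = n + a i := by
    intro i
    have h1 := cn_le (A := A) (a i)
    exact ⟨n + a i - cn A (a i) - 1, by omega⟩
  choose p hp using hp
  have hlt : ∀ i < k, ∀ j < k, i < j → p i < p j := by
    intro i hi j hj hij
    have h1 : 2 * k * i + 2 * k ≤ 2 * k * j := by nlinarith
    have h2 := ha2 i hi
    have h3 := ha1 j hj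
    have h4 := ha1 i hi
    have h5 := ha2 j hj
    have h6 : 2 * k * j + k ≤ 2 * k ^ 2 := by nlinarith
    have h7 := hW.ne' (x := a i) (y := a j) (j := 1) (by omega) (by omega) (by omega)
    have h8 := hp i
    have h9 := hp j
    omega
  have himg : (range k).image p ⊆ S := by
    intro q hq
    rw [mem_image] at hq
    obtain ⟨i, hi, rfl⟩ := hq
    rw [mem_range] at hi
    have h6 : 2 * k * i + k ≤ 2 * k ^ 2 := by nlinarith
    exact hS _ ⟨a i, ha i hi, by have := ha1 i hi; omega, by have := ha2 i hi; omega, hp i⟩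
  have hinj : Set.InjOn p (range k : Set ℕ) := by
    intro i hi j hj hij
    rw [mem_coe, mem_range] at hi hj
    rcases lt_trichotomy i j with h | h | h
    · have := hlt i hi j hj h
      omega
    · exact h
    · have := hlt j hj i hi h
      omega
  calc k = ((range k).image p).card := by rw [card_image_of_injOn hinj, card_range]
    _ ≤ S.card := card_le_card himg

end Pool.Agent.CP25
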