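import Pool.Agent.CP25.Det

/-!
# The deterministic part: the positions `q`
-/

set_option autoImplicit false

open Finset

namespace Pool.Agent.CP25

variable {A : Set ℕ}

theorem sizes {n k : ℕ} (hk : 5 ≤ k) (hn : k ^ 10 ≤ n) :
    5 * k ^ 4 ≤ k ^ 5 ∧ 5 * k ^ 5 ≤ k ^ 6 ∧ 125 * k ≤ k ^ 4 ∧ 100 * k ^ 6 ≤ n ∧
      100 * (n * k) ≤ n ^ 2 ∧ 5 * n ≤ n * k := by
  have h1 : 5 * k ^ 4 ≤ k ^ 5 := by
    have e : k ^ 5 = k * k ^ 4 := by ring
    rw [e]
    exact Nat.mul_le_mul_right _ hk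
  have h2 : 5 * k ^ 5 ≤ k ^ 6 := by
    have e : k ^ 6 = k * k ^ 5 := by ring
    rw [e]
    exact Nat.mul_le_mul_right _ hk
  have h5 : 5 ^ 3 ≤ k ^ 3 := Nat.pow_le_pow_left hk 3
  have h3 : 125 * k ≤ k ^ 4 := by
    have e : k ^ 4 = k ^ 3 * k := by ring
    rw [e]
    exact Nat.mul_le_mul_right _ (by omega)
  have h6 : 5 ^ 4 ≤ k ^ 4 := Nat.pow_le_pow_left hk 4
  have h4 : 100 * k ^ 6 ≤ n := by
    have e : k ^ 10 = k ^ 4 * k ^ 6 := by ring
    have h7 : 5 ^ 4 * k ^ 6 ≤ k ^ 4 * k ^ 6 := Nat.mul_le_mul_right _ h6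
    omega
  have h8 : 100 * k ≤ n := by omega
  have h9 : 100 * (n * k) ≤ n ^ 2 := by
    have h10 := Nat.mul_le_mul_left n h8
    have e : n ^ 2 = n * n := by ring
    have e2 : n * (100 * k) = 100 * (n * k) := by ring
    rw [e, ← e2]
    exact h10
  have h11 : 5 * n ≤ n * k := by
    have h12 := Nat.mul_le_mul_left n hk
    have e : n * 5 = 5 * n := by ring
    omega
  exact ⟨h1, h2, h3, h4, h9, h11⟩

/-- The elements `a t`, the numbers `p t` and the elements `b t = P (p t)` of the blocks. -/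
structure Grp (A : Set ℕ) (n k : ℕ) (a p b : ℕ → ℕ) : Prop where
  ha : ∀ t < k ^ 2, a t ∈ A
  hp : ∀ t < k ^ 2, p t ∈ A
  hb : ∀ t < k ^ 2, b t ∈ A
  ahi : ∀ t < k ^ 2, a t < 8 + 4 * k ^ 4
  rel : ∀ t < k ^ 2, p t + cn A (a t) + 1 = n + a t
  plo : ∀ t < k ^ 2, n ≤ p t + 1
  phi : ∀ t < k ^ 2, p t ≤ n + 8 + 4 * k ^ 4
  p0 : ∀ t < k ^ 2, p 0 ≤ p t
  pw : ∀ t < k ^ 2, p t ≤ p 0 + 4 * k ^ 4
  bel : ∀ t < k ^ 2, cn A (b t) + 1 = p t
  blo : ∀ t < k ^ 2, 4 * n ≤ b t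
  bhi : ∀ t < k ^ 2, b t < 8 + p t * k
  bmono : ∀ s < k ^ 2, ∀ t < s, b t + p s + 1 ≤ b s + p t
  pmono : ∀ s < k ^ 2, ∀ t < s, p t + k ≤ p s
  b0 : ∀ t < k ^ 2, b 0 + p t ≤ b t + p 0
  bw : ∀ t < k ^ 2, b t ≤ b 0 + 4 * k ^ 5 + k

theorem exists_grp {n k : ℕ} (hk : 5 ≤ k) (hn : k ^ 10 ≤ n) (hW : Win A k (n ^ 2))
    (hU : cn A (4 * n) + 2 ≤ n)
    (hG : ∀ t < k ^ 2, ∃ a ∈ A, ∃ p ∈ A, 8 + 4 * k ^ 2 * t ≤ a ∧
      a < 8 + 4 * k ^ 2 * t + 2 * k ^ 2 ∧ p + cn A a + 1 = n + a) :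
    ∃ a p b : ℕ → ℕ, Grp A n k a p b := by
  obtain ⟨s1, s2, s3, s4, s5, s6⟩ := sizes hk hn
  choose! a ha p hp h1 h2 h3 using hG
  have hk2 : 0 < k ^ 2 := by positivity
  have ablk : ∀ t < k ^ 2, 4 * k ^ 2 * t + 4 * k ^ 2 ≤ 4 * k ^ 4 := by
    intro t ht
    have h4 : k ^ 2 * (t + 1) ≤ k ^ 2 * k ^ 2 := Nat.mul_le_mul_left _ ht
    have e : k ^ 2 * k ^ 2 = k ^ 4 := by ring
    have e2 : k ^ 2 * (t + 1) = k ^ 2 * t + k ^ 2 := by ring
    have e3 : 4 * k ^ 2 * t = 4 * (k ^ 2 * t) := by ring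
    omega
  have hkk : k ^ 2 = k * k := by ring
  have hk1 : k * 5 ≤ k * k := Nat.mul_le_mul_left k hk
  have ahi : ∀ t < k ^ 2, a t < 8 + 4 * k ^ 4 := by
    intro t ht
    have h4 := ablk t ht
    have h5 := h2 t ht
    omega
  have plo : ∀ t < k ^ 2, n ≤ p t + 1 := by
    intro t ht
    have h4 := cn_le (A := A) (a t)
    have h5 := h3 t ht
    omega
  have phi : ∀ t < k ^ 2, p t ≤ n + 8 + 4 * k ^ 4 := by
    intro t ht
    have h4 := ahi t ht
    have h5 := h3 t ht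
    omega
  have alo : ∀ t < k ^ 2, 8 ≤ a t := by
    intro t ht
    have h4 := h1 t ht
    omega
  have amono : ∀ s < k ^ 2, ∀ t < s, a t + 2 * k ^ 2 ≤ a s := by
    intro s hs t ht
    have h4 := h1 s hs
    have h5 := h2 t (ht.trans hs)
    have h6 : k ^ 2 * (t + 1) ≤ k ^ 2 * s := Nat.mul_le_mul_left _ ht
    have e2 : k ^ 2 * (t + 1) = k ^ 2 * t + k ^ 2 := by ring
    have e3 : 4 * k ^ 2 * t = 4 * (k ^ 2 * t) := by ring
    have e4 : 4 * k ^ 2 * s = 4 * (k ^ 2 * s) := by ring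
    omega
  have pmono : ∀ s < k ^ 2, ∀ t < s, p t + k ≤ p s := by
    intro s hs t ht
    have h4 := amono s hs t ht
    have h5 := hW.ne' (x := a t) (y := a s) (j := k) (alo t (ht.trans hs)) (by
      rw [← hkk]
      omega) (by have := ahi s hs; omega)
    have h6 := h3 t (ht.trans hs)
    have h7 := h3 s hs
    omega
  have p0 : ∀ t < k ^ 2, p 0 ≤ p t := by
    intro t ht
    rcases Nat.eq_zero_or_pos t with h | h
    · rw [h]
    · have := pmono t ht 0 h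
      omega
  have a0 : ∀ t < k ^ 2, a 0 ≤ a t := by
    intro t ht
    rcases Nat.eq_zero_or_pos t with h | h
    · rw [h]
    · have := amono t ht 0 h
      omega
  have pw : ∀ t < k ^ 2, p t ≤ p 0 + 4 * k ^ 4 := by
    intro t ht
    have h4 := cn_mono (A := A) (a0 t ht)
    have h5 := h3 t ht
    have h6 := h3 0 hk2
    have h7 := ahi t ht
    have h8 := alo 0 hk2
    have h9 := cn_le (A := A) (a 0)
    omega
  have p2n : ∀ t < k ^ 2, p t ≤ 2 * n := by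
    intro t ht
    have := phi t ht
    omega
  have pk : ∀ t < k ^ 2, p t * k ≤ 2 * (n * k) := by
    intro t ht
    have h4 := Nat.mul_le_mul_right k (p2n t ht)
    have e : 2 * n * k = 2 * (n * k) := by ring
    omega
  have hex : ∀ t < k ^ 2, ∃ b, b ∈ A ∧ b < 8 + p t * k ∧ cn A b + 1 = p t := by
    intro t ht
    have h4 := pk t ht
    have h5 := hW.el (x := 8) le_rfl (p t) (by omega)
    have h6 := plo t ht
    exact exists_el (by omega) (by omega)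
  choose! b hb hb1 hb2 using hex
  have blo : ∀ t < k ^ 2, 4 * n ≤ b t := by
    intro t ht
    by_contra hcon
    have h4 := cn_lt (x := b t) (y := 4 * n) (hb t ht) le_rfl (by omega)
    have h5 := hb2 t ht
    have h6 := plo t ht
    omega
  have bge : ∀ s < k ^ 2, ∀ t < k ^ 2, p t ≤ p s → b t ≤ b s := by
    intro s hs t ht h
    by_contra hcon
    have h4 := cn_lt (x := b s) (y := b t) (hb s hs) le_rfl (by omega)
    have h5 := hb2 t ht
    have h6 := hb2 s hs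
    omega
  have bge2 : ∀ s < k ^ 2, ∀ t < k ^ 2, p t ≤ p s → b t + p s ≤ b s + p t := by
    intro s hs t ht h
    have h4 := cn_le_add (A := A) (bge s hs t ht h)
    have h5 := hb2 t ht
    have h6 := hb2 s hs
    omega
  have bmono : ∀ s < k ^ 2, ∀ t < s, b t + p s + 1 ≤ b s + p t := by
    intro s hs t ht
    have hts := ht.trans hs
    have h4 := pmono s hs t ht
    have h5 := bge2 s hs t hts (by omega)
    have h6 := hb2 t hts
    have h7 := hb2 s hs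
    have h8 := pk s hs
    have h9 := hb1 s hs
    have h10 := hW.ne' (x := b t) (y := b s) (j := 1) (by have := blo t hts; omega) (by omega)
      (by omega)
    omega
  have bw : ∀ t < k ^ 2, b t ≤ b 0 + 4 * k ^ 5 + k := by
    intro t ht
    by_contra hcon
    have e : (4 * k ^ 4 + 1) * k = 4 * k ^ 5 + k := by ring
    have h8 := pk t ht
    have h9 := hb1 t ht
    have h4 := hW.el (x := b 0) (by have := blo 0 hk2; omega) (4 * k ^ 4 + 1) (by
      rw [e]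
      omega)
    rw [e] at h4
    have h5 := cn_mono (A := A) (x := b 0 + (4 * k ^ 5 + k)) (y := b t) (by omega)
    have h6 := hb2 t ht
    have h7 := hb2 0 hk2
    have h10 := pw t ht
    omega
  exact ⟨a, p, b, ha, hp, hb, ahi, h3, plo, phi, p0, pw, hb2, blo, hb1, bmono, pmono,
    fun t ht => bge2 t ht 0 hk2 (p0 t ht), bw⟩

end Pool.Agent.CP25
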