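import Pool.Agent.CP25.DetG

/-!
# The deterministic part: the sets `Q1f`, `Q2f` are large; what their elements give
-/

set_option autoImplicit false

open Finset

namespace Pool.Agent.CP25

variable {A : Set ℕ}

theorem card_img {N : ℕ} {q : ℕ → ℕ} (h : ∀ s < N, ∀ t < s, q t < q s) (S : Finset ℕ)
    (hS : ∀ t < N, q t ∈ S) : N ≤ S.card := by
  classical
  have himg : (range N).image q ⊆ S := by
    intro x hx
    rw [mem_image] at hx
    obtain ⟨i, hi, rfl⟩ := hx
    exact hS i (mem_range.1 hi)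
  have hinj : Set.InjOn q (range N : Set ℕ) := by
    intro i hi j hj hij
    rw [mem_coe, mem_range] at hi hj
    rcases lt_trichotomy i j with h1 | h1 | h1
    · have := h j hj i h1
      omega
    · exact h1
    · have := h i hi j h1
      omega
  calc N = ((range N).image q).card := by rw [card_image_of_injOn hinj, card_range]
    _ ≤ S.card := card_le_card himg

theorem det1 {n k : ℕ} {a p b : ℕ → ℕ} (hk : 5 ≤ k) (hn : k ^ 10 ≤ n) (h : Grp A n k a p b) :
    ∃ v, 2 * n < v ∧ v + k ^ 6 ≤ n ^ 2 ∧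
      k ^ 2 ≤ (Q1f n k v (cV A (Icc v (v + k ^ 6))) (trS A (n ^ 2) (Icc v (v + k ^ 6)))).card := by
  obtain ⟨s1, s2, s3, s4, s5, s6⟩ := sizes hk hn
  have hk2 : 0 < k ^ 2 := by positivity
  obtain ⟨v, hv⟩ : ∃ v, v + p 0 = b 0 + 1 := by
    have h1 := h.blo 0 hk2
    have h2 := h.phi 0 hk2
    exact ⟨b 0 + 1 - p 0, by omega⟩
  have pk : ∀ t < k ^ 2, p t * k ≤ 2 * (n * k) := by
    intro t ht
    have h4 : p t ≤ 2 * n := by have := h.phi t ht; omega
    have h5 := Nat.mul_le_mul_right k h4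
    have e : 2 * n * k = 2 * (n * k) := by ring
    omega
  have hb0 := h.blo 0 hk2
  have hb0' := h.bhi 0 hk2
  have hp0 := h.plo 0 hk2
  have hp0' := h.phi 0 hk2
  have hpk0 := pk 0 hk2
  refine ⟨v, by omega, by omega, ?_⟩
  refine card_img (q := fun t => b t + 1 - p t) ?_ _ ?_
  · intro s hs t ht
    have h1 := h.bmono s hs t ht
    have h2 := h.blo t (ht.trans hs)
    have h3 := h.phi t (ht.trans hs)
    omega
  · intro t ht
    have h1 := h.b0 t ht
    have h2 := h.bw t ht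
    have h3 := h.p0 t ht
    have h4 := h.phi t ht
    have h5 := h.blo t ht
    have h6 := h.ahi t ht
    have h7 := h.bhi t ht
    have h8 := pk t ht
    have h9 := h.bel t ht
    unfold Q1f
    rw [mem_filter, mem_Icc]
    refine ⟨⟨by omega, by omega⟩, a t, ?_, p t, ?_, b t, ?_, by omega, by omega, ?_, ?_, by omega⟩
    · rw [mem_trS, mem_Icc]
      exact ⟨by omega, by omega, h.ha t ht⟩
    · rw [mem_trS, mem_Icc]
      exact ⟨by omega, by omega, h.hp t ht⟩
    · rw [mem_trS, mem_Icc]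
      exact ⟨by omega, by omega, h.hb t ht⟩
    · rw [cn_tr_lo (fun m hm => by rw [mem_Icc] at hm; omega) (by omega)]
      exact h.rel t ht
    · rw [cn_tr_hi (fun m hm => by rw [mem_Icc] at hm; omega) (by omega)]
      exact h9

theorem det2 {n k : ℕ} {a p b : ℕ → ℕ} (hk : 5 ≤ k) (hn : k ^ 10 ≤ n) (h : Grp A n k a p b) :
    ∃ v, 2 * n < v ∧ v ≤ n ^ 2 ∧
      k ^ 2 ≤ (Q2f n k v (trS A (n ^ 2) (Icc v (v + k ^ 6)))).card := by
  obtain ⟨s1, s2, s3, s4, s5, s6⟩ := sizes hk hn
  have hk2 : 0 < k ^ 2 := by positivity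
  have pk : ∀ t < k ^ 2, p t * k ≤ 2 * (n * k) := by
    intro t ht
    have h4 : p t ≤ 2 * n := by have := h.phi t ht; omega
    have h5 := Nat.mul_le_mul_right k h4
    have e : 2 * n * k = 2 * (n * k) := by ring
    omega
  have hb0 := h.blo 0 hk2
  have hb0' := h.bhi 0 hk2
  have hp0 := h.plo 0 hk2
  have hp0' := h.phi 0 hk2
  have hpk0 := pk 0 hk2
  refine ⟨b 0 + p 0 + 1, by omega, by omega, ?_⟩
  refine card_img (q := fun t => b t + p t + 1) ?_ _ ?_
  · intro s hs t ht
    have h1 := h.bmono s hs t ht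
    have h2 := h.pmono s hs t ht
    omega
  · intro t ht
    have h1 := h.b0 t ht
    have h2 := h.bw t ht
    have h3 := h.p0 t ht
    have h4 := h.phi t ht
    have h5 := h.blo t ht
    have h6 := h.ahi t ht
    have h7 := h.bhi t ht
    have h8 := pk t ht
    have h9 := h.bel t ht
    have h10 := h.pw t ht
    unfold Q2f
    rw [mem_filter, mem_Icc]
    refine ⟨⟨by omega, by omega⟩, a t, ?_, p t, ?_, b t, ?_, by omega, by omega, ?_, ?_, rfl⟩
    · rw [mem_trS, mem_Icc]
      exact ⟨by omega, by omega, h.ha t ht⟩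
    · rw [mem_trS, mem_Icc]
      exact ⟨by omega, by omega, h.hp t ht⟩
    · rw [mem_trS, mem_Icc]
      exact ⟨by omega, by omega, h.hb t ht⟩
    · rw [cn_tr_lo (fun m hm => by rw [mem_Icc] at hm; omega) (by omega)]
      exact h.rel t ht
    · rw [cn_tr_lo (fun m hm => by rw [mem_Icc] at hm; omega) (by omega)]
      exact h9

/-- The `m`-th element of `A` in increasing order, `m = 1, 2, ...`. -/
noncomputable def el (A : Set ℕ) (m : ℕ) : ℕ := Nat.nth (fun x => x ∈ A) (m - 1)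

theorem el_cn {x m : ℕ} (hx : x ∈ A) (hm : cn A x + 1 = m) : el A m = x := by
  classical
  have h1 : Nat.count (fun y => y ∈ A) x = cn A x := by
    rw [Nat.count_eq_card_filter_range]
    unfold cn
    congr
  unfold el
  have h2 : m - 1 = Nat.count (fun y => y ∈ A) x := by omega
  rw [h2]
  exact Nat.nth_count hx

/-- The statement of Q1 for the set `A` in the place of the primes. -/
def Good1 (A : Set ℕ) (n : ℕ) : Prop :=
  ∃ k, 0 < k ∧ k < n ∧ k + el A (n - k) ∈ A ∧
    ∃ q ∈ A, (q : ℤ) = el A (k + el A (n - k)) - ((k + el A (n - k) : ℕ) : ℤ) + 1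

/-- The statement of Q2 for the set `A` in the place of the primes. -/
def Good2 (A : Set ℕ) (n : ℕ) : Prop :=
  ∃ k, 0 < k ∧ k < n ∧ k + el A (n - k) ∈ A ∧
    el A (k + el A (n - k)) + (k + el A (n - k)) + 1 ∈ A

theorem conc1 {n k v q : ℕ} (hv : 2 * n < v)
    (hq : q ∈ Q1f n k v (cV A (Icc v (v + k ^ 6))) (trS A (n ^ 2) (Icc v (v + k ^ 6))))
    (hqA : q ∈ A) : Good1 A n := by
  unfold Q1f at hq
  rw [mem_filter, mem_Icc] at hq
  obtain ⟨-, a, ha, p, hp, b, hb, h1, h2, h3, h4, h5⟩ := hq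
  rw [mem_trS] at ha hp hb
  rw [cn_tr_lo (fun m hm => by rw [mem_Icc] at hm; omega) (by omega)] at h3
  rw [cn_tr_hi (fun m hm => by rw [mem_Icc] at hm; omega) (by omega)] at h4
  have h6 := cn_le (A := A) a
  have h7 : n - (n - (cn A a + 1)) = cn A a + 1 := by omega
  have h8 : el A (n - (n - (cn A a + 1))) = a := el_cn ha.2.2 h7.symm
  have h9 : n - (cn A a + 1) + el A (n - (n - (cn A a + 1))) = p := by
    rw [h8]
    omega
  refine ⟨n - (cn A a + 1), by omega, by omega, ?_, q, hqA, ?_⟩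
  · rw [h9]
    exact hp.2.2
  · rw [h9, el_cn hb.2.2 h4]
    omega

theorem conc2 {n k v q : ℕ} (hv : 2 * n < v)
    (hq : q ∈ Q2f n k v (trS A (n ^ 2) (Icc v (v + k ^ 6)))) (hqA : q ∈ A) : Good2 A n := by
  unfold Q2f at hq
  rw [mem_filter, mem_Icc] at hq
  obtain ⟨-, a, ha, p, hp, b, hb, h1, h2, h3, h4, h5⟩ := hq
  rw [mem_trS] at ha hp hb
  rw [cn_tr_lo (fun m hm => by rw [mem_Icc] at hm; omega) (by omega)] at h3
  rw [cn_tr_lo (fun m hm => by rw [mem_Icc] at hm; omega) (by omega)] at h4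
  have h6 := cn_le (A := A) a
  have h7 : n - (n - (cn A a + 1)) = cn A a + 1 := by omega
  have h8 : el A (n - (n - (cn A a + 1))) = a := el_cn ha.2.2 h7.symm
  have h9 : n - (cn A a + 1) + el A (n - (n - (cn A a + 1))) = p := by
    rw [h8]
    omega
  refine ⟨n - (cn A a + 1), by omega, by omega, ?_, ?_⟩
  · rw [h9]
    exact hp.2.2
  · rw [h9, el_cn hb.2.2 h4, ← h5]
    exact hqA

end Pool.Agent.CP25
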