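import Mathlib

/-!
# CP25/Num69: numeric facts for the model theorem (MP_83c1c9_nt)
-/

set_option autoImplicit false

namespace Pool.Agent.CP25

open Finset Filter Topology

/-- the expected number of elements below `4 n` -/
theorem N1 : ∀ᶠ n : ℕ in atTop, ∀ f : ℕ → ℝ, (∀ m, f m ≤ 1) →
    (∀ m : ℕ, 3 ≤ m → f m ≤ 1 / Real.log m) → ∑ m ∈ range (4 * n), f m ≤ n / 8 := by
  have h1 : ∀ᶠ n : ℕ in atTop, Real.exp 64 * 64 ≤ n :=
    tendsto_natCast_atTop_atTop.eventually_ge_atTop _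
  filter_upwards [h1, eventually_ge_atTop 256] with n hn hn2 f hf1 hf2
  have hn' : (256 : ℝ) ≤ n := by exact_mod_cast hn2
  have h2 : ∀ m ∈ range (4 * n), f m ≤ (if m ∈ range (n / 64 + 1) then (1 : ℝ) else 0) + 1 / 64 := by
    intro m _
    split_ifs with h
    · have := hf1 m
      linarith
    · rw [mem_range, not_lt] at h
      have h3 : (n : ℝ) / 64 ≤ m := by
        have h4 : n < m * 64 := by omega
        have h5 : (n : ℝ) < m * 64 := by exact_mod_cast h4
        linarith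
      have h6 : Real.exp 64 ≤ m := by linarith
      have h7 : (64 : ℝ) ≤ Real.log m := by
        rw [← Real.log_exp 64]
        exact Real.log_le_log (Real.exp_pos _) h6
      have h8 : 3 ≤ m := by
        have : 256 / 64 + 1 ≤ n / 64 + 1 := by omega
        omega
      have h9 : 1 / Real.log m ≤ 1 / 64 := one_div_le_one_div_of_le (by norm_num) h7
      have := hf2 m h8
      linarith
  have h3 : ∑ m ∈ range (4 * n), (if m ∈ range (n / 64 + 1) then (1 : ℝ) else 0) ≤ (n : ℝ) / 64 + 1 := by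
    rw [← Finset.sum_filter, Finset.sum_const, nsmul_eq_mul, mul_one]
    have h4 : ((range (4 * n)).filter (fun m => m ∈ range (n / 64 + 1))).card ≤ n / 64 + 1 := by
      calc _ ≤ (range (n / 64 + 1)).card := by
            apply Finset.card_le_card
            intro m hm
            exact (Finset.mem_filter.1 hm).2
        _ = n / 64 + 1 := card_range _
    have h5 : (((range (4 * n)).filter (fun m => m ∈ range (n / 64 + 1))).card : ℝ) ≤
        ((n / 64 + 1 : ℕ) : ℝ) := by exact_mod_cast h4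
    have h6 : ((n / 64 : ℕ) : ℝ) ≤ (n : ℝ) / 64 := Nat.cast_div_le
    push_cast at h5
    linarith
  calc ∑ m ∈ range (4 * n), f m ≤ ∑ m ∈ range (4 * n),
        ((if m ∈ range (n / 64 + 1) then (1 : ℝ) else 0) + 1 / 64) := sum_le_sum h2
    _ = ∑ m ∈ range (4 * n), (if m ∈ range (n / 64 + 1) then (1 : ℝ) else 0) +
        ((4 * n : ℕ) : ℝ) * (1 / 64) := by
        rw [sum_add_distrib, sum_const, card_range, nsmul_eq_mul]
    _ ≤ n / 8 := by
        push_cast
        linarith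

/-- `n^4 (1 - 1 / log (2 n^2))^k` is at most `1 / n^2` -/
theorem N2 {k : ℕ → ℕ} (hk : ∀ᶠ n : ℕ in atTop, Real.log n ^ 3 ≤ k n) :
    ∀ᶠ n : ℕ in atTop, (n : ℝ) ^ 4 * (1 - 1 / Real.log (2 * n ^ 2)) ^ (k n) ≤ 1 / (n : ℝ) ^ 2 := by
  have h1 : ∀ᶠ n : ℕ in atTop, (18 : ℝ) ≤ Real.log n :=
    (Real.tendsto_log_atTop.comp tendsto_natCast_atTop_atTop).eventually_ge_atTop _
  filter_upwards [hk, h1, eventually_ge_atTop 2] with n hk h1 hn
  have hn0 : (0 : ℝ) < n := by exact_mod_cast (by omega : 0 < n)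
  have e1 : Real.log (2 * n ^ 2) = Real.log 2 + 2 * Real.log n := by
    rw [Real.log_mul (by norm_num) (by positivity), Real.log_pow]
    norm_num
  have h2 : Real.log 2 ≤ Real.log n := Real.log_le_log (by norm_num) (by exact_mod_cast hn)
  have h20 : 0 < Real.log 2 := Real.log_pos (by norm_num)
  have e2 : Real.log (2 * n ^ 2) ≤ 3 * Real.log n := by linarith
  have e3 : 1 ≤ Real.log (2 * n ^ 2) := by linarith
  obtain ⟨L, hL⟩ : ∃ L, L = Real.log n := ⟨_, rfl⟩
  obtain ⟨c, hc⟩ : ∃ c, c = 1 / Real.log (2 * n ^ 2) := ⟨_, rfl⟩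
  have hc0 : 0 ≤ c := by rw [hc]; positivity
  have hc1 : c ≤ 1 := by rw [hc, div_le_one (by linarith)]; exact e3
  have hc2 : 1 / (3 * L) ≤ c := by
    rw [hc, hL]
    exact one_div_le_one_div_of_le (by linarith) e2
  rw [← hc]
  rw [← hL] at h1 hk
  have h3 : (1 - c) ^ (k n) ≤ Real.exp (-(6 * L)) := by
    calc (1 - c) ^ (k n) ≤ (Real.exp (-c)) ^ (k n) :=
          pow_le_pow_left₀ (by linarith) (Real.one_sub_le_exp_neg c) _
      _ = Real.exp (-(c * k n)) := by rw [← Real.exp_nat_mul]; ring_nf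
      _ ≤ Real.exp (-(6 * L)) := by
          rw [Real.exp_le_exp]
          have h4 : 1 / (3 * L) * L ^ 3 ≤ c * k n :=
            mul_le_mul hc2 hk (by positivity) hc0
          have h5 : 1 / (3 * L) * L ^ 3 = L ^ 2 / 3 := by
            field_simp
          nlinarith
  have h6 : Real.exp (-(6 * L)) = 1 / (n : ℝ) ^ 6 := by
    rw [hL, Real.exp_neg, show (6 : ℝ) * Real.log n = ((6 : ℕ) : ℝ) * Real.log n by norm_num,
      Real.exp_nat_mul, Real.exp_log hn0, one_div]
  calc (n : ℝ) ^ 4 * (1 - c) ^ (k n) ≤ (n : ℝ) ^ 4 * (1 / (n : ℝ) ^ 6) := by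
        rw [← h6]
        exact mul_le_mul_of_nonneg_left h3 (by positivity)
    _ = 1 / (n : ℝ) ^ 2 := by
        field_simp

theorem log_le_k : ∀ᶠ n : ℕ in atTop, Real.log n ^ 3 ≤ (⌊(n : ℝ) ^ (1 / 10 : ℝ)⌋₊ : ℝ) := by
  have h1 : (fun x : ℝ => Real.log x ^ (3 : ℝ)) =o[atTop] fun x : ℝ => x ^ (1 / 10 : ℝ) :=
    isLittleO_log_rpow_rpow_atTop 3 (by norm_num)
  have h2 := (h1.bound (show (0 : ℝ) < 1 / 2 by norm_num))
  have h3 := tendsto_natCast_atTop_atTop.eventually h2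
  have h4 : ∀ᶠ n : ℕ in atTop, (2 : ℝ) ≤ (n : ℝ) ^ (1 / 10 : ℝ) :=
    ((tendsto_rpow_atTop (by norm_num : (0 : ℝ) < 1 / 10)).comp
      tendsto_natCast_atTop_atTop).eventually_ge_atTop _
  filter_upwards [h3, h4, eventually_ge_atTop 1] with n h5 h6 hn
  have h7 : 0 ≤ Real.log n := Real.log_natCast_nonneg n
  rw [Real.norm_of_nonneg (by positivity), Real.norm_of_nonneg (by positivity)] at h5
  have h8 : Real.log n ^ (3 : ℝ) = Real.log n ^ 3 := by
    rw [show (3 : ℝ) = ((3 : ℕ) : ℝ) by norm_num, Real.rpow_natCast]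
  rw [h8] at h5
  have h9 := Nat.lt_floor_add_one ((n : ℝ) ^ (1 / 10 : ℝ))
  linarith

end Pool.Agent.CP25
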