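import Pool.Agent.CP25.Bound
import Pool.Agent.CP25.Num69

/-!
# Both statements hold almost surely for all large `n`
-/

set_option autoImplicit false

namespace Pool.Agent.CP25

open MeasureTheory ProbabilityTheory Finset Filter Topology

variable {Ω : Type*} [mΩ : MeasurableSpace Ω] {μ : Measure Ω} {E : ℕ → Set Ω}

/-- `k = [n^(1/10)]` -/
noncomputable def kk (n : ℕ) : ℕ := ⌊(n : ℝ) ^ (1 / 10 : ℝ)⌋₊

theorem kk_pow (n : ℕ) : kk n ^ 10 ≤ n := by
  have h1 : (kk n : ℝ) ≤ (n : ℝ) ^ (1 / 10 : ℝ) := Nat.floor_le (by positivity)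
  have h2 : (kk n : ℝ) ^ 10 ≤ n := by
    calc (kk n : ℝ) ^ 10 ≤ ((n : ℝ) ^ (1 / 10 : ℝ)) ^ 10 :=
          pow_le_pow_left₀ (Nat.cast_nonneg _) h1 10
      _ = n := by
          rw [← Real.rpow_natCast, ← Real.rpow_mul (Nat.cast_nonneg n)]
          norm_num
  exact_mod_cast h2

theorem small : ∀ᶠ n : ℕ in atTop, Real.exp (-(n / 4)) +
    7 * (n : ℝ) ^ 3 * (1 - 1 / (3 * Real.log n)) ^ kk n ≤ 39 * (1 / (n : ℝ) ^ 2) := by
  have hlog : Tendsto (fun n : ℕ => Real.log n) atTop atTop :=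
    Real.tendsto_log_atTop.comp tendsto_natCast_atTop_atTop
  filter_upwards [log_le_k, hlog.eventually_ge_atTop 15, eventually_ge_atTop 3] with n h1 h2 h3
  have hn : (0 : ℝ) < n := by
    have : (3 : ℝ) ≤ n := by exact_mod_cast h3
    linarith
  obtain ⟨L, hL⟩ : ∃ L, L = Real.log n := ⟨_, rfl⟩
  have hk : L ^ 3 ≤ (kk n : ℝ) := by
    rw [hL]
    exact h1
  rw [← hL] at h2 ⊢
  have e1 : Real.exp (-(n / 4)) ≤ 32 * (1 / (n : ℝ) ^ 2) := by
    have h4 := Real.quadratic_le_exp_of_nonneg (show (0 : ℝ) ≤ n / 4 by positivity)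
    have h5 : (n : ℝ) ^ 2 / 32 ≤ Real.exp (n / 4) := by nlinarith
    rw [Real.exp_neg]
    calc (Real.exp (n / 4))⁻¹ ≤ ((n : ℝ) ^ 2 / 32)⁻¹ := inv_anti₀ (by positivity) h5
      _ = 32 * (1 / (n : ℝ) ^ 2) := by
          field_simp
  have e2 : (1 - 1 / (3 * L)) ^ kk n ≤ 1 / (n : ℝ) ^ 5 := by
    have h4 : 1 - 1 / (3 * L) ≤ Real.exp (-(1 / (3 * L))) := by
      have := Real.add_one_le_exp (-(1 / (3 * L)))
      linarith
    have h5 : 0 ≤ 1 - 1 / (3 * L) := by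
      have h6 : 1 / (3 * L) ≤ 1 / 1 := one_div_le_one_div_of_le (by norm_num) (by linarith)
      linarith
    calc (1 - 1 / (3 * L)) ^ kk n ≤ Real.exp (-(1 / (3 * L))) ^ kk n := pow_le_pow_left₀ h5 h4 _
      _ = Real.exp (kk n * (-(1 / (3 * L)))) := by rw [Real.exp_nat_mul]
      _ ≤ Real.exp (-(5 * L)) := by
          rw [Real.exp_le_exp]
          have h7 : L ^ 3 * (1 / (3 * L)) ≤ kk n * (1 / (3 * L)) :=
            mul_le_mul_of_nonneg_right hk (by positivity)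
          have h8 : L ^ 3 * (1 / (3 * L)) = L ^ 2 / 3 := by
            field_simp
          rw [h8] at h7
          nlinarith
      _ = 1 / (n : ℝ) ^ 5 := by
          rw [Real.exp_neg, one_div]
          congr 1
          rw [show (5 : ℝ) * L = ((5 : ℕ) : ℝ) * L by norm_num, Real.exp_nat_mul, hL,
            Real.exp_log hn]
  have e3 : 7 * (n : ℝ) ^ 3 * (1 - 1 / (3 * L)) ^ kk n ≤ 7 * (1 / (n : ℝ) ^ 2) := by
    calc 7 * (n : ℝ) ^ 3 * (1 - 1 / (3 * L)) ^ kk n ≤ 7 * (n : ℝ) ^ 3 * (1 / (n : ℝ) ^ 5) :=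
          mul_le_mul_of_nonneg_left e2 (by positivity)
      _ = 7 * (1 / (n : ℝ) ^ 2) := by
          field_simp
  linarith

theorem bc [IsProbabilityMeasure μ] {s : ℕ → Set Ω} {b : ℕ → ℝ} (hb : Summable b)
    (h : ∀ᶠ n in atTop, μ.real (s n) ≤ b n) : ∀ᵐ ω ∂μ, ∀ᶠ n in atTop, ω ∉ s n := by
  obtain ⟨N, hN⟩ := eventually_atTop.1 h
  have h1 : ∑' n, μ (s (n + N)) ≠ ⊤ := by
    have h2 : Summable (fun n => b (n + N)) := (summable_nat_add_iff N).2 hb
    have h3 : ∀ n, μ (s (n + N)) ≤ ENNReal.ofReal (b (n + N)) := by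
      intro n
      have h4 := hN (n + N) (by omega)
      rw [← ofReal_measureReal (measure_ne_top μ _)]
      exact ENNReal.ofReal_le_ofReal h4
    have h5 : ∀ n, 0 ≤ b (n + N) := fun n => measureReal_nonneg.trans (hN (n + N) (by omega))
    refine ne_top_of_le_ne_top ?_ (ENNReal.tsum_le_tsum h3)
    rw [← ENNReal.ofReal_tsum_of_nonneg h5 h2]
    exact ENNReal.ofReal_ne_top
  filter_upwards [ae_eventually_notMem h1] with ω hω
  obtain ⟨M, hM⟩ := eventually_atTop.1 hω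
  rw [eventually_atTop]
  refine ⟨M + N, fun n hn => ?_⟩
  have h2 := hM (n - N) (by omega)
  have h3 : n - N + N = n := by omega
  rw [h3] at h2
  exact h2

theorem main [IsProbabilityMeasure μ] (hE : ∀ m, MeasurableSet (E m)) (hi : iIndepSet E μ)
    (hp : ∀ m, 3 ≤ m → μ.real (E m) = 1 / Real.log m) :
    ∀ᵐ ω ∂μ, ∀ᶠ n in atTop, Good1 (RS E ω) n ∧ Good2 (RS E ω) n := by
  have hlog : Tendsto (fun n : ℕ => Real.log n) atTop atTop :=
    Real.tendsto_log_atTop.comp tendsto_natCast_atTop_atTop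
  have hk5 : ∀ᶠ n : ℕ in atTop, 5 ≤ kk n := by
    filter_upwards [log_le_k, hlog.eventually_ge_atTop 5] with n h1 h2
    have h3 : (5 : ℝ) ≤ kk n := by
      have h4 : (5 : ℝ) ≤ Real.log n ^ 3 := by nlinarith [sq_nonneg (Real.log n)]
      exact h4.trans h1
    exact_mod_cast h3
  have hbad : ∀ᶠ n in atTop, μ.real (Bad E n (kk n)) ≤ 39 * (1 / (n : ℝ) ^ 2) := by
    filter_upwards [hk5, small, N1] with n h1 h2 h3
    refine (bad_le hE hi hp h1 (kk_pow n) ?_).trans h2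
    exact h3 _ (fun m => measureReal_le_one) fun m hm => (hp m hm).le
  have hs : Summable (fun n : ℕ => 39 * (1 / (n : ℝ) ^ 2)) :=
    (Real.summable_one_div_nat_pow.2 (by norm_num)).mul_left 39
  filter_upwards [bc hs hbad] with ω hω
  filter_upwards [hω, hk5] with n h1 h2
  exact good_of_notMem h2 (kk_pow n) h1

end Pool.Agent.CP25
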