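import Pool.Agent.CP25.DetQ
import Pool.Agent.CM69.Key
import Pool.Agent.GM53.Chern82

/-!
# The bad events and their probabilities
-/

set_option autoImplicit false

namespace Pool.Agent.CP25

open MeasureTheory ProbabilityTheory Finset Filter Topology
open Pool.Agent.CM69 (tr mem_tr real_biInter key)

variable {Ω : Type*} [mΩ : MeasurableSpace Ω] {μ : Measure Ω} {E : ℕ → Set Ω}

/-- The random set. -/
def RS (E : ℕ → Set Ω) (ω : Ω) : Set ℕ := {m | ω ∈ E m}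

omit mΩ in
theorem tr_eq {X : ℕ} {V : Finset ℕ} {ω : Ω} : tr E X V ω = trS (RS E ω) X V := by
  ext m
  rw [mem_tr, mem_trS]
  rfl

/-- The window `[y, y + k)` without an element. -/
def W1 (E : ℕ → Set Ω) (k y : ℕ) : Set Ω := {ω | ∀ m ∈ Ico y (y + k), ω ∉ E m}

/-- The window `[y, y + k)` without a non-element. -/
def W2 (E : ℕ → Set Ω) (k y : ℕ) : Set Ω := {ω | ∀ m ∈ Ico y (y + k), ω ∈ E m}

open Classical in
/-- The positions `p` given by the block number `t`. -/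
noncomputable def Qg (n k t : ℕ) (G : Finset ℕ) : Finset ℕ :=
  (Icc (n - 1) (2 * n)).filter (fun p => ∃ a ∈ G, 8 + 4 * k ^ 2 * t ≤ a ∧
    a < 8 + 4 * k ^ 2 * t + 2 * k ^ 2 ∧ p + cn (G : Set ℕ) a + 1 = n + a)

/-- The block `t` has many positions, but none of them is in the random set. -/
def BG (E : ℕ → Set Ω) (n k t : ℕ) : Set Ω :=
  {ω | k ≤ (Qg n k t (tr E (n ^ 2) (Icc (n - 1) (2 * n)) ω)).card ∧
    ∀ q ∈ Qg n k t (tr E (n ^ 2) (Icc (n - 1) (2 * n)) ω), ω ∉ E q}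

def F1 (E : ℕ → Set Ω) (n k v c : ℕ) : Set Ω :=
  {ω | k ^ 2 ≤ (Q1f n k v c (tr E (n ^ 2) (Icc v (v + k ^ 6)) ω)).card ∧
    ∀ q ∈ Q1f n k v c (tr E (n ^ 2) (Icc v (v + k ^ 6)) ω), ω ∉ E q}

def F2 (E : ℕ → Set Ω) (n k v : ℕ) : Set Ω :=
  {ω | k ^ 2 ≤ (Q2f n k v (tr E (n ^ 2) (Icc v (v + k ^ 6)) ω)).card ∧
    ∀ q ∈ Q2f n k v (tr E (n ^ 2) (Icc v (v + k ^ 6)) ω), ω ∉ E q}

/-- Too many elements below `4 n`. -/
def UU (E : ℕ → Set Ω) (n : ℕ) : Set Ω := {ω | n < cn (RS E ω) (4 * n) + 2}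

omit mΩ in
/-- Outside of the bad events the statements hold. -/
theorem good {n k : ℕ} (hk : 5 ≤ k) (hn : k ^ 10 ≤ n) {ω : Ω}
    (h1 : ∀ y < n ^ 2, 8 ≤ y → ω ∉ W1 E k y) (h2 : ∀ y < n ^ 2, 8 ≤ y → ω ∉ W2 E k y)
    (h3 : ω ∉ UU E n) (h4 : ∀ t < k ^ 2, ω ∉ BG E n k t)
    (h5 : ∀ v < n ^ 2 + 1, 2 * n < v → ∀ c < k ^ 6 + 2, ω ∉ F1 E n k v c)
    (h6 : ∀ v < n ^ 2 + 1, 2 * n < v → ω ∉ F2 E n k v) :
    Good1 (RS E ω) n ∧ Good2 (RS E ω) n := by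
  classical
  obtain ⟨s1, s2, s3, s4, s5, s6⟩ := sizes hk hn
  have hW : Win (RS E ω) k (n ^ 2) := by
    intro y hy hyk
    have g1 := h1 y (by omega) hy
    have g2 := h2 y (by omega) hy
    simp only [W1, Set.mem_ofPred_eq, not_forall, not_not, mem_Ico] at g1
    simp only [W2, Set.mem_ofPred_eq, not_forall, mem_Ico] at g2
    obtain ⟨m, ⟨ha, hb⟩, hc⟩ := g1
    obtain ⟨m', ⟨ha', hb'⟩, hc'⟩ := g2
    exact ⟨⟨m, hc, ha, hb⟩, ⟨m', hc', ha', hb'⟩⟩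
  have hU : cn (RS E ω) (4 * n) + 2 ≤ n := by
    simp only [UU, Set.mem_ofPred_eq, not_lt] at h3
    exact h3
  have hkk : k ^ 2 = k * k := by ring
  have hk1 : k * 5 ≤ k * k := Nat.mul_le_mul_left k hk
  have hG : ∀ t < k ^ 2, ∃ a ∈ RS E ω, ∃ p ∈ RS E ω, 8 + 4 * k ^ 2 * t ≤ a ∧
      a < 8 + 4 * k ^ 2 * t + 2 * k ^ 2 ∧ p + cn (RS E ω) a + 1 = n + a := by
    intro t ht
    have e4 : 4 * k ^ 2 * t + 4 * k ^ 2 ≤ 4 * k ^ 4 := by
      have h4 : k ^ 2 * (t + 1) ≤ k ^ 2 * k ^ 2 := Nat.mul_le_mul_left _ ht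
      have e : k ^ 2 * k ^ 2 = k ^ 4 := by ring
      have e2 : k ^ 2 * (t + 1) = k ^ 2 * t + k ^ 2 := by ring
      have e3 : 4 * k ^ 2 * t = 4 * (k ^ 2 * t) := by ring
      omega
    have g := h4 t ht
    simp only [BG, Set.mem_ofPred_eq, not_and] at g
    have hcard : k ≤ (Qg n k t (tr E (n ^ 2) (Icc (n - 1) (2 * n)) ω)).card := by
      refine many_p hW (by omega) (by omega) (n := n) (z := 8 + 4 * k ^ 2 * t) (by omega)
        (by omega) _ ?_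
      rintro p ⟨a, ha, ha1, ha2, ha3⟩
      have hle := cn_le (A := RS E ω) a
      unfold Qg
      rw [mem_filter, mem_Icc]
      refine ⟨⟨by omega, by omega⟩, a, ?_, ha1, ha2, ?_⟩
      · rw [mem_tr, mem_Icc]
        exact ⟨by omega, by omega, ha⟩
      · rw [tr_eq, cn_tr_lo (fun m hm => by rw [mem_Icc] at hm; omega) (by omega)]
        exact ha3
    have g2 := g hcard
    push Not at g2
    obtain ⟨p, hp, hpE⟩ := g2
    unfold Qg at hp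
    rw [mem_filter, mem_Icc] at hp
    obtain ⟨-, a, ha, ha1, ha2, ha3⟩ := hp
    rw [tr_eq, cn_tr_lo (fun m hm => by rw [mem_Icc] at hm; omega) (by omega)] at ha3
    rw [mem_tr] at ha
    exact ⟨a, ha.2.2, p, hpE, ha1, ha2, ha3⟩
  obtain ⟨a, p, b, hgrp⟩ := exists_grp hk hn hW hU hG
  constructor
  · obtain ⟨v, hv1, hv2, hv3⟩ := det1 hk hn hgrp
    have hc : cV (RS E ω) (Icc v (v + k ^ 6)) < k ^ 6 + 2 := by
      unfold cV
      calc _ ≤ (Icc v (v + k ^ 6)).card := card_le_card (filter_subset _ _)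
        _ = k ^ 6 + 1 := by rw [Nat.card_Icc]; omega
        _ < k ^ 6 + 2 := Nat.lt_succ_self _
    have g := h5 v (by omega) hv1 _ hc
    simp only [F1, Set.mem_ofPred_eq, not_and, tr_eq] at g
    have g2 := g hv3
    push Not at g2
    obtain ⟨q, hq, hqE⟩ := g2
    exact conc1 hv1 hq hqE
  · obtain ⟨v, hv1, hv2, hv3⟩ := det2 hk hn hgrp
    have g := h6 v (by omega) hv1
    simp only [F2, Set.mem_ofPred_eq, not_and, tr_eq] at g
    have g2 := g hv3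
    push Not at g2
    obtain ⟨q, hq, hqE⟩ := g2
    exact conc2 hv1 hq hqE

/-- The bad event for `n`. -/
def Bad (E : ℕ → Set Ω) (n k : ℕ) : Set Ω :=
  (⋃ y ∈ (range (n ^ 2)).filter (fun y => 8 ≤ y), W1 E k y) ∪
  ((⋃ y ∈ (range (n ^ 2)).filter (fun y => 8 ≤ y), W2 E k y) ∪
  (UU E n ∪ ((⋃ t ∈ range (k ^ 2), BG E n k t) ∪
  ((⋃ v ∈ (range (n ^ 2 + 1)).filter (fun v => 2 * n < v), ⋃ c ∈ range (k ^ 6 + 2), F1 E n k v c) ∪
  (⋃ v ∈ (range (n ^ 2 + 1)).filter (fun v => 2 * n < v), F2 E n k v)))))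

omit mΩ in
theorem good_of_notMem {n k : ℕ} (hk : 5 ≤ k) (hn : k ^ 10 ≤ n) {ω : Ω} (h : ω ∉ Bad E n k) :
    Good1 (RS E ω) n ∧ Good2 (RS E ω) n := by
  unfold Bad at h
  simp only [Set.mem_union, Set.mem_iUnion, mem_filter, mem_range, not_or, not_exists,
    and_imp] at h
  obtain ⟨h1, h2, h3, h4, h5, h6⟩ := h
  exact good hk hn h1 h2 h3 h4 h5 h6

end Pool.Agent.CP25
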